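import Pool.Agent.H50.G.S.W23.DC.Defs
/-! DC project: sums over primes and integrals. -/

namespace Pool.Agent.W505.DC

open Finset
open Pool.Agent.W23.DC

open Classical in
/-- sum of `φ p` over `u ≤ t p < v` -/
noncomputable def SS (P : Finset ℕ) (t : ℕ → ℝ) (φ : ℕ → ℝ) (u v : ℝ) : ℝ :=
  ∑ p ∈ P.filter (fun p => u ≤ t p ∧ t p < v), φ p

lemma SS_split (P : Finset ℕ) (t : ℕ → ℝ) (φ : ℕ → ℝ) {u v w : ℝ} (huv : u ≤ v) (hvw : v ≤ w) :
    SS P t φ u w = SS P t φ u v + SS P t φ v w := by
  classical
  unfold SS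
  rw [sum_filter, sum_filter, sum_filter, ← sum_add_distrib]
  apply sum_congr rfl
  intro p _
  by_cases h1 : t p < v
  · by_cases h2 : u ≤ t p
    · simp [h1, h2, lt_of_lt_of_le h1 hvw]
    · simp [h2, h1]
  · have h3 : v ≤ t p := not_lt.1 h1
    simp [h3, h1, huv.trans h3]

lemma SS_self (P : Finset ℕ) (t : ℕ → ℝ) (φ : ℕ → ℝ) (u : ℝ) : SS P t φ u u = 0 := by
  classical
  unfold SS
  rw [sum_eq_zero]
  intro p hp
  rw [mem_filter] at hp
  exact absurd hp.2.2 (not_lt.2 hp.2.1)

lemma piece {P : Finset ℕ} {t g : ℕ → ℝ} {h : ℝ → ℝ} {H κ η u v : ℝ} (hu : 0 < u) (huv : u ≤ v)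
    (hg : ∀ p ∈ P, 0 ≤ g p) (hc : ContinuousOn h (Set.Icc u v)) (hH : |h u| ≤ H)
    (hκ : ∀ x ∈ Set.Icc u v, |h x - h u| ≤ κ) (hη : |SS P t g u v - Real.log (v / u)| ≤ η) :
    |SS P t (fun p => g p * h (t p)) u v - ∫ x in u..v, h x / x| ≤
      H * η + κ * (SS P t g u v + Real.log (v / u)) := by
  classical
  have hκ0 : 0 ≤ κ := (abs_nonneg _).trans (hκ u ⟨le_rfl, huv⟩)
  have hH0 : 0 ≤ H := (abs_nonneg _).trans hH
  have hpos : ∀ x ∈ Set.Icc u v, 0 < x := fun x hx => lt_of_lt_of_le hu hx.1
  have hv : 0 < v := lt_of_lt_of_le hu huv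
  have hint : ∫ x in u..v, 1 / x = Real.log (v / u) := integral_one_div_of_pos hu hv
  have ci : ContinuousOn (fun x : ℝ => 1 / x) (Set.Icc u v) :=
    continuousOn_const.div continuousOn_id (fun x hx => (hpos x hx).ne')
  have cI : IntervalIntegrable (fun x : ℝ => 1 / x) MeasureTheory.volume u v :=
    (ci.mono (by rw [Set.uIcc_of_le huv])).intervalIntegrable
  have chI : IntervalIntegrable (fun x : ℝ => h x / x) MeasureTheory.volume u v := by
    apply ContinuousOn.intervalIntegrable
    rw [Set.uIcc_of_le huv]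
    exact hc.div continuousOn_id (fun x hx => (hpos x hx).ne')
  have e1 : |SS P t (fun p => g p * h (t p)) u v - h u * SS P t g u v| ≤ κ * SS P t g u v := by
    unfold SS
    rw [mul_sum, mul_sum, ← sum_sub_distrib]
    refine (abs_sum_le_sum_abs _ _).trans (sum_le_sum ?_)
    intro p hp
    rw [mem_filter] at hp
    rw [show g p * h (t p) - h u * g p = g p * (h (t p) - h u) by ring, abs_mul,
      abs_of_nonneg (hg p hp.1), mul_comm κ]
    exact mul_le_mul_of_nonneg_left (hκ _ ⟨hp.2.1, hp.2.2.le⟩) (hg p hp.1)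
  have e2 : |h u * SS P t g u v - h u * Real.log (v / u)| ≤ H * η := by
    rw [← mul_sub, abs_mul]
    exact mul_le_mul hH hη (abs_nonneg _) hH0
  have e3 : |h u * Real.log (v / u) - ∫ x in u..v, h x / x| ≤ κ * Real.log (v / u) := by
    rw [← hint, ← intervalIntegral.integral_const_mul, ← intervalIntegral.integral_const_mul,
      ← intervalIntegral.integral_sub (cI.const_mul _) chI]
    have := intervalIntegral.norm_integral_le_of_norm_le (f := fun x => h u * (1 / x) - h x / x)
      (g := fun x => κ * (1 / x)) (μ := MeasureTheory.volume) huv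
      (MeasureTheory.ae_of_all _ (fun x hx => by
        have hx' : x ∈ Set.Icc u v := ⟨hx.1.le, hx.2⟩
        have hx0 := hpos x hx'
        rw [Real.norm_eq_abs, show h u * (1 / x) - h x / x = -((h x - h u) * (1 / x)) by ring,
          abs_neg, abs_mul, abs_of_pos (by positivity : 0 < 1 / x)]
        exact mul_le_mul_of_nonneg_right (hκ x hx') (by positivity))) (cI.const_mul _)
    simpa [Real.norm_eq_abs] using this
  calc |SS P t (fun p => g p * h (t p)) u v - ∫ x in u..v, h x / x|
      = |(SS P t (fun p => g p * h (t p)) u v - h u * SS P t g u v) +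
        (h u * SS P t g u v - h u * Real.log (v / u)) +
        (h u * Real.log (v / u) - ∫ x in u..v, h x / x)| := by congr 1; ring
    _ ≤ κ * SS P t g u v + H * η + κ * Real.log (v / u) :=
        (abs_add_three _ _ _).trans (add_le_add (add_le_add e1 e2) e3)
    _ = _ := by ring

theorem MI : St_MI := by
  classical
  intro ε₁ ρ κ H hε hε1 hρ hκ hH
  set m : ℕ := ⌈1 / ρ⌉₊ + 1 with hm
  have hm0 : 0 < (m : ℝ) := by rw [hm]; positivity
  have hmρ : 1 / (m : ℝ) ≤ ρ := by
    rw [div_le_iff₀ hm0]
    have h1 : 1 / ρ ≤ m := by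
      rw [hm]
      push_cast
      exact (Nat.le_ceil _).trans (by linarith)
    rw [div_le_iff₀ hρ] at h1
    linarith
  refine ⟨min 1 (κ / (m * H)), lt_min one_pos (by positivity), ?_⟩
  set η := min 1 (κ / (m * H)) with hη
  have hη0 : 0 < η := lt_min one_pos (by positivity)
  intro P t g w hw hg hM a b h ha hab hb hc hHb hu
  have ha0 : 0 < a := lt_of_lt_of_le hε ha
  have hb0 : 0 < b := lt_of_lt_of_le ha0 hab
  set x : ℕ → ℝ := fun i => a + i * ((b - a) / m) with hx
  have hx0 : x 0 = a := by simp [hx]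
  have hxm : x m = b := by
    simp only [hx]
    field_simp
    ring
  have hstep : 0 ≤ (b - a) / m := div_nonneg (by linarith) hm0.le
  have hxmono : Monotone x := by
    intro i j hij
    simp only [hx]
    have : (i : ℝ) ≤ j := by exact_mod_cast hij
    have := mul_le_mul_of_nonneg_right this hstep
    linarith
  have hMS : ∀ u v : ℝ, ε₁ ≤ u → u ≤ v → v ≤ w → |SS P t g u v - Real.log (v / u)| ≤ η := hM
  have key : ∀ i : ℕ, i ≤ m → |SS P t (fun p => g p * h (t p)) a (x i) - ∫ y in a..(x i), h y / y| ≤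
      i * (H * η) + κ * (SS P t g a (x i) + Real.log (x i / a)) := by
    intro i
    induction i with
    | zero =>
      intro _
      rw [hx0, SS_self, SS_self, div_self ha0.ne']
      simp
    | succ i ih =>
      intro hi
      have ih' := ih (by omega)
      have h1 : a ≤ x i := hx0 ▸ hxmono (Nat.zero_le i)
      have h2 : x i ≤ x (i + 1) := hxmono (Nat.le_succ i)
      have h3 : x (i + 1) ≤ b := hxm ▸ hxmono hi
      have hsub : Set.Icc (x i) (x (i + 1)) ⊆ Set.Icc a b := Set.Icc_subset_Icc h1 h3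
      have hxi0 : 0 < x i := lt_of_lt_of_le ha0 h1
      have hxi1 : 0 < x (i + 1) := lt_of_lt_of_le hxi0 h2
      have hlen : x (i + 1) - x i ≤ ρ := by
        simp only [hx]
        push_cast
        have : (b - a) / m ≤ 1 / m := by
          apply div_le_div_of_nonneg_right _ hm0.le
          linarith
        linarith
      have hp := piece (P := P) (t := t) (g := g) (h := h) (H := H) (κ := κ) (η := η) hxi0 h2 hg
        (hc.mono hsub) (hHb _ (hsub ⟨le_rfl, h2⟩)) (fun y hy => hu y (hsub hy) _ (hsub ⟨le_rfl, h2⟩) (by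
          rw [abs_of_nonneg (by linarith [hy.1])]
          linarith [hy.2])) (hMS _ _ (ha.trans h1) h2 (h3.trans hb))
      have hI : ∀ u v : ℝ, u ∈ Set.Icc a b → v ∈ Set.Icc a b →
          IntervalIntegrable (fun y : ℝ => h y / y) MeasureTheory.volume u v := by
        intro u v hu' hv'
        apply ContinuousOn.intervalIntegrable
        have hs : Set.uIcc u v ⊆ Set.Icc a b := Set.uIcc_subset_Icc hu' hv'
        exact (hc.mono hs).div continuousOn_id (fun y hy => (lt_of_lt_of_le ha0 (hs hy).1).ne')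
      rw [SS_split P t _ h1 h2, SS_split P t g h1 h2,
        ← intervalIntegral.integral_add_adjacent_intervals (hI a (x i) ⟨le_rfl, hab⟩ ⟨h1, h2.trans h3⟩)
          (hI (x i) (x (i + 1)) ⟨h1, h2.trans h3⟩ ⟨h1.trans h2, h3⟩)]
      have hlog : Real.log (x (i + 1) / a) = Real.log (x i / a) + Real.log (x (i + 1) / x i) := by
        rw [← Real.log_mul (by positivity) (by positivity)]
        congr 1
        field_simp
      rw [hlog]
      have htri := abs_add_le (SS P t (fun p => g p * h (t p)) a (x i) - ∫ y in a..(x i), h y / y)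
        (SS P t (fun p => g p * h (t p)) (x i) (x (i + 1)) - ∫ y in (x i)..(x (i + 1)), h y / y)
      have hre : SS P t (fun p => g p * h (t p)) a (x i) + SS P t (fun p => g p * h (t p)) (x i) (x (i + 1)) -
          ((∫ y in a..(x i), h y / y) + ∫ y in (x i)..(x (i + 1)), h y / y) =
          (SS P t (fun p => g p * h (t p)) a (x i) - ∫ y in a..(x i), h y / y) +
        (SS P t (fun p => g p * h (t p)) (x i) (x (i + 1)) - ∫ y in (x i)..(x (i + 1)), h y / y) := by
        ring
      rw [hre]
      push_cast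
      linarith
  have hfin := key m le_rfl
  rw [hxm] at hfin
  have hT := hMS a b ha hab hb
  have hT' : SS P t g a b ≤ Real.log (b / a) + 1 := by
    have := (abs_le.1 hT).2
    have h1 : η ≤ 1 := min_le_left _ _
    linarith
  have hlogb : Real.log (b / a) ≤ Real.log (1 / ε₁) := by
    apply Real.log_le_log (by positivity)
    exact div_le_div₀ zero_le_one (by linarith) hε ha
  have hη2 : (m : ℝ) * (H * η) ≤ κ := by
    have h1 : η ≤ κ / (m * H) := min_le_right _ _
    rw [le_div_iff₀ (by positivity)] at h1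
    linarith
  refine hfin.trans ?_
  have h5 : κ * (SS P t g a b + Real.log (b / a)) ≤ κ * (2 * Real.log (1 / ε₁) + 1) := by
    apply mul_le_mul_of_nonneg_left _ hκ.le
    linarith
  linarith

end Pool.Agent.W505.DC
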