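import Pool.Agent.H50.G.S.W505.DC.MI
/-! DC project: the main terms of the linear sieve. -/

namespace Pool.Agent.W505.DC

open Finset
open Pool.Agent.W23.DC

lemma int_id {φ Φ : ℝ → ℝ} {A c : ℝ} (hc2 : 2 ≤ c) (hφ : ContinuousOn φ (Set.Ici 1))
    (hΦ : ∀ s, c ≤ s → s * Φ s = A + ∫ x in c..s, φ (x - 1)) {e b τ : ℝ} (he : 0 < e) (heb : e ≤ b)
    (hcb : c * b ≤ τ) :
    ∫ x in e..b, (e / x * φ ((τ - x) / x)) / x = Φ (τ / e) - e / b * Φ (τ / b) := by
  have hb : 0 < b := lt_of_lt_of_le he heb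
  have hτ : 0 < τ := lt_of_lt_of_le (by positivity) hcb
  set ψ : ℝ → ℝ := fun y => φ (max y 1) with hψ
  have hψc : Continuous ψ := hφ.comp_continuous (by fun_prop) (fun y => Set.mem_Ici.2 (le_max_right _ _))
  have hψe : ∀ y, 1 ≤ y → ψ y = φ y := fun y hy => by simp only [hψ]; rw [max_eq_left hy]
  have hψc' : Continuous (fun y => ψ (y - 1)) := hψc.comp (by fun_prop)
  have hint : ∀ s, c ≤ s → ∫ x in c..s, φ (x - 1) = ∫ x in c..s, ψ (x - 1) := by
    intro s hs
    apply intervalIntegral.integral_congr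
    intro x hx
    rw [Set.uIcc_of_le hs] at hx
    exact (hψe _ (by linarith [hx.1])).symm
  have hder : ∀ x ∈ Set.uIcc e b, HasDerivAt
      (fun x => -(e / τ) * (A + ∫ y in c..(τ / x), ψ (y - 1))) ((e / x * φ ((τ - x) / x)) / x) x := by
    intro x hx
    rw [Set.uIcc_of_le heb] at hx
    have hx0 : 0 < x := lt_of_lt_of_le he hx.1
    have h1 : HasDerivAt (fun u => ∫ y in c..u, ψ (y - 1)) (ψ (τ / x - 1)) (τ / x) :=
      intervalIntegral.integral_hasDerivAt_right (hψc'.intervalIntegrable _ _)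
        (hψc'.stronglyMeasurableAtFilter _ _) hψc'.continuousAt
    have h2 : HasDerivAt (fun x : ℝ => τ / x) (-τ / x ^ 2) x := by
      have := (hasDerivAt_inv hx0.ne').const_mul τ
      simp only [div_eq_mul_inv]
      refine this.congr_deriv ?_
      field_simp
    have h3 := ((h1.comp x h2).const_add A).const_mul (-(e / τ))
    have hcx : c ≤ τ / x := by
      rw [le_div_iff₀ hx0]
      have := mul_le_mul_of_nonneg_left hx.2 (by linarith : (0:ℝ) ≤ c)
      linarith
    refine h3.congr_deriv ?_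
    rw [hψe _ (by linarith), show τ / x - 1 = (τ - x) / x by field_simp]
    field_simp
  have hI : IntervalIntegrable (fun x => (e / x * φ ((τ - x) / x)) / x) MeasureTheory.volume e b := by
    apply ContinuousOn.intervalIntegrable
    rw [Set.uIcc_of_le heb]
    have hpos : ∀ x ∈ Set.Icc e b, x ≠ 0 := fun x hx => (lt_of_lt_of_le he hx.1).ne'
    refine ContinuousOn.div (ContinuousOn.mul (continuousOn_const.div continuousOn_id hpos) ?_)
      continuousOn_id hpos
    apply hφ.comp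
    · exact (continuousOn_const.sub continuousOn_id).div continuousOn_id hpos
    · intro x hx
      have hx0 : 0 < x := lt_of_lt_of_le he hx.1
      rw [Set.mem_Ici, le_div_iff₀ hx0]
      have h1 := mul_le_mul_of_nonneg_left hx.2 (by linarith : (0:ℝ) ≤ c)
      have h2 := mul_le_mul_of_nonneg_right hc2 hx0.le
      linarith
  rw [intervalIntegral.integral_eq_sub_of_hasDerivAt hder hI]
  have hcb' : c ≤ τ / b := by rwa [le_div_iff₀ hb]
  have hce' : c ≤ τ / e := by
    rw [le_div_iff₀ he]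
    have := mul_le_mul_of_nonneg_left heb (by linarith : (0:ℝ) ≤ c)
    linarith
  rw [← hint _ hcb', ← hint _ hce', ← hΦ _ hcb', ← hΦ _ hce']
  field_simp
  ring

lemma MM_true (P : Finset ℕ) (t g : ℕ → ℝ) {e : ℝ} (he : ∀ p ∈ P, e ≤ t p) (k : ℕ) (τ ζ : ℝ) :
    MM P t g (k + 1) true τ ζ =
      1 - SS P t (fun p => g p * MM P t g k false (τ - t p) (t p)) e (min ζ (τ / 3)) := by
  classical
  unfold SS
  rw [MM]
  congr 1
  apply sum_congr _ (fun _ _ => rfl)
  ext p
  simp only [mem_filter]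
  constructor
  · rintro ⟨h1, h2, h3⟩
    exact ⟨h1, he p h1, lt_min h2 (by linarith)⟩
  · rintro ⟨h1, h2, h3⟩
    rw [lt_min_iff] at h3
    exact ⟨h1, h3.1, by linarith [h3.2]⟩

lemma MM_false (P : Finset ℕ) (t g : ℕ → ℝ) {e : ℝ} (he : ∀ p ∈ P, e ≤ t p) (k : ℕ) (τ ζ : ℝ) :
    MM P t g (k + 1) false τ ζ =
      1 - SS P t (fun p => g p * MM P t g k true (τ - t p) (t p)) e ζ := by
  classical
  unfold SS
  rw [MM]
  congr 1
  apply sum_congr _ (fun _ _ => rfl)
  ext p
  simp only [mem_filter]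
  constructor
  · rintro ⟨h1, h2⟩
    exact ⟨h1, he p h1, h2⟩
  · rintro ⟨h1, h2, h3⟩
    exact ⟨h1, h3⟩

/-- compactness: bounds and equicontinuity of the integrands -/
lemma unif {φ : ℝ → ℝ} (hφ : ContinuousOn φ (Set.Ici 1)) {e : ℝ} (he : 0 < e) {κ : ℝ}
    (hκ : 0 < κ) : ∃ H ρ : ℝ, 0 < H ∧ 0 < ρ ∧ ∀ τ b : ℝ, 2 * e ≤ τ → τ ≤ 1 → e ≤ b → 2 * b ≤ τ →
      ContinuousOn (fun x => e / x * φ ((τ - x) / x)) (Set.Icc e b) ∧
      (∀ x ∈ Set.Icc e b, |e / x * φ ((τ - x) / x)| ≤ H) ∧
      (∀ x ∈ Set.Icc e b, ∀ y ∈ Set.Icc e b, |x - y| ≤ ρ →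
        |e / x * φ ((τ - x) / x) - e / y * φ ((τ - y) / y)| ≤ κ) := by
  set D : Set (ℝ × ℝ) := (Set.Icc (2 * e) 1 ×ˢ Set.Icc e 1) ∩ {q | 2 * q.2 ≤ q.1} with hD
  have hDc : IsCompact D := (isCompact_Icc.prod isCompact_Icc).inter_right
    (isClosed_le (by fun_prop) (by fun_prop))
  have hpos : ∀ q ∈ D, q.2 ≠ 0 := fun q hq => (lt_of_lt_of_le he hq.1.2.1).ne'
  have hcont : ContinuousOn (fun q : ℝ × ℝ => e / q.2 * φ ((q.1 - q.2) / q.2)) D := by
    refine ContinuousOn.mul (continuousOn_const.div continuousOn_snd hpos) ?_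
    apply hφ.comp
    · exact (continuousOn_fst.sub continuousOn_snd).div continuousOn_snd hpos
    · intro q hq
      have hx0 : 0 < q.2 := lt_of_lt_of_le he hq.1.2.1
      rw [Set.mem_Ici, le_div_iff₀ hx0]
      have : 2 * q.2 ≤ q.1 := hq.2
      linarith
  obtain ⟨H, hH⟩ := hDc.exists_bound_of_continuousOn hcont
  have hU := hDc.uniformContinuousOn_of_continuous hcont
  obtain ⟨ρ, hρ, hρ2⟩ := (Metric.uniformContinuousOn_iff.1 hU) κ hκ
  refine ⟨max H 1, ρ / 2, lt_of_lt_of_le one_pos (le_max_right _ _), half_pos hρ, ?_⟩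
  intro τ b hτ hτ1 heb hb
  have hmem : ∀ x ∈ Set.Icc e b, (τ, x) ∈ D := by
    intro x hx
    refine ⟨⟨⟨hτ, hτ1⟩, ⟨hx.1, ?_⟩⟩, ?_⟩
    · have := hx.2
      show x ≤ 1
      linarith
    · have := hx.2
      show 2 * x ≤ τ
      linarith
  refine ⟨?_, ?_, ?_⟩
  · have h1 : ContinuousOn (fun x : ℝ => ((τ, x) : ℝ × ℝ)) (Set.Icc e b) := by fun_prop
    exact hcont.comp h1 hmem
  · intro x hx
    have := hH _ (hmem x hx)
    rw [Real.norm_eq_abs] at this
    exact this.trans (le_max_left _ _)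
  · intro x hx y hy hxy
    have := hρ2 _ (hmem x hx) _ (hmem y hy) (by
      rw [Prod.dist_eq]
      simp only [dist_self]
      rw [Real.dist_eq]
      exact max_lt hρ (by linarith))
    rw [Real.dist_eq] at this
    exact this.le

theorem MT (hMI : St_MI) : St_MT := by
  classical
  intro A0 F f hSF ε₁ η' K hε hε1 hη'
  obtain ⟨hA0, cF, cf, F3, f2, f4, F1, f1, eF, ef⟩ := hSF
  have hA3 : 3 ≤ A0 := by
    have h1 := F1 3 (by norm_num)
    rw [F3 3 (by norm_num) le_rfl, le_div_iff₀ (by norm_num)] at h1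
    linarith
  set B : ℝ := Real.log (1 / ε₁) + 1 with hB
  have hlog0 : 0 ≤ Real.log (1 / ε₁) := Real.log_nonneg (by rw [le_div_iff₀ hε]; linarith)
  have hB1 : 1 ≤ B := by linarith
  have hB0 : 0 < B := by linarith
  have h1B : 1 ≤ 1 + B := by linarith
  set η₁ : ℝ := η' / (1 + B) ^ K with hη₁
  have hη₁0 : 0 < η₁ := by positivity
  set κ : ℝ := η₁ / (2 * B) with hκ
  have hκ0 : 0 < κ := by positivity
  obtain ⟨H1, ρ1, hH1, hρ1, hU1⟩ := unif cF hε hκ0
  obtain ⟨H2, ρ2, hH2, hρ2, hU2⟩ := unif cf hε hκ0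
  obtain ⟨ηa, hηa, hMa⟩ := hMI ε₁ ρ1 κ H1 hε hε1 hρ1 hκ0 hH1
  obtain ⟨ηb, hηb, hMb⟩ := hMI ε₁ ρ2 κ H2 hε hε1 hρ2 hκ0 hH2
  refine ⟨min 1 (min ηa ηb), lt_min one_pos (lt_min hηa hηb), ?_⟩
  intro P t g w hw hg ht hM
  have hMera : Mer P t g ε₁ w ηa := fun a b h1 h2 h3 =>
    (hM a b h1 h2 h3).trans ((min_le_right _ _).trans (min_le_left _ _))
  have hMerb : Mer P t g ε₁ w ηb := fun a b h1 h2 h3 =>
    (hM a b h1 h2 h3).trans ((min_le_right _ _).trans (min_le_right _ _))
  have hκB : κ * (2 * Real.log (1 / ε₁) + 2) = η₁ := by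
    rw [show 2 * Real.log (1 / ε₁) + 2 = 2 * B by rw [hB]; ring, hκ]
    field_simp
  have hSg : ∀ b : ℝ, ε₁ ≤ b → b ≤ w → SS P t g ε₁ b ≤ B := by
    intro b h1 h2
    have h3 : |SS P t g ε₁ b - Real.log (b / ε₁)| ≤ min 1 (min ηa ηb) := hM ε₁ b le_rfl h1 h2
    have h4 := (abs_le.1 (h3.trans (min_le_left _ _))).2
    have h5 : Real.log (b / ε₁) ≤ Real.log (1 / ε₁) := by
      have hb0 : 0 < b := lt_of_lt_of_le hε h1
      apply Real.log_le_log (by positivity)
      apply div_le_div_of_nonneg_right _ hε.le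
      linarith
    linarith
  have hSg0 : ∀ b : ℝ, 0 ≤ SS P t g ε₁ b := by
    intro b
    unfold SS
    apply sum_nonneg
    intro p hp
    rw [mem_filter] at hp
    exact hg p hp.1
  have main : ∀ k : ℕ, ∀ τ ζ : ℝ, τ ≤ (k + 2) * ε₁ → ε₁ ≤ ζ → ζ ≤ w → ζ ≤ τ → τ ≤ 1 →
      MM P t g k true τ ζ ≤ ε₁ / ζ * F (τ / ζ) + η₁ * (1 + B) ^ k ∧
      (2 * ζ ≤ τ → ε₁ / ζ * f (τ / ζ) - η₁ * (1 + B) ^ k ≤ MM P t g k false τ ζ) := by
    intro k
    induction k with
    | zero =>
      intro τ ζ h1 h2 h3 h4 h5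
      have hζ : 0 < ζ := lt_of_lt_of_le hε h2
      have hτ : 0 < τ := lt_of_lt_of_le hζ h4
      simp only [MM, pow_zero, mul_one]
      norm_num at h1
      constructor
      · have hs1 : 1 ≤ τ / ζ := by rw [le_div_iff₀ hζ]; linarith
        have hs2 : τ / ζ ≤ 3 := by rw [div_le_iff₀ hζ]; linarith
        rw [F3 _ hs1 hs2]
        have h6 : ε₁ / ζ * (A0 / (τ / ζ)) = ε₁ * A0 / τ := by field_simp
        rw [h6]
        have h7 : 1 ≤ ε₁ * A0 / τ := by
          rw [le_div_iff₀ hτ]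
          have := mul_le_mul_of_nonneg_left hA3 hε.le
          linarith
        linarith
      · intro h6
        have h7 : τ / ζ = 2 := by
          rw [div_eq_iff hζ.ne']
          linarith
        rw [h7, f2 2 (by norm_num) le_rfl]
        linarith
    | succ k ih =>
      intro τ ζ h1 h2 h3 h4 h5
      push_cast at h1
      have hζ : 0 < ζ := lt_of_lt_of_le hε h2
      have hτ : 0 < τ := lt_of_lt_of_le hζ h4
      have hek : η₁ ≤ η₁ * (1 + B) ^ k := le_mul_of_one_le_right hη₁0.le (one_le_pow₀ h1B)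
      have hek1 : η₁ + η₁ * (1 + B) ^ k * B ≤ η₁ * (1 + B) ^ (k + 1) := by
        rw [pow_succ]
        nlinarith
      have hek0 : 0 ≤ η₁ * (1 + B) ^ k := by positivity
      constructor
      · rw [MM_true P t g ht k τ ζ]
        rcases lt_or_ge τ (3 * ε₁) with hlt | hge
        · -- the sum is empty
          have h6 : SS P t (fun p => g p * MM P t g k false (τ - t p) (t p)) ε₁ (min ζ (τ / 3)) = 0 := by
            unfold SS
            rw [sum_eq_zero]
            intro p hp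
            rw [mem_filter, lt_min_iff] at hp
            linarith [hp.2.1, hp.2.2.2]
          rw [h6]
          have hs1 : 1 ≤ τ / ζ := by rw [le_div_iff₀ hζ]; linarith
          have hs2 : τ / ζ ≤ 3 := by rw [div_le_iff₀ hζ]; linarith
          rw [F3 _ hs1 hs2]
          have h7 : ε₁ / ζ * (A0 / (τ / ζ)) = ε₁ * A0 / τ := by field_simp
          rw [h7]
          have h8 : 1 ≤ ε₁ * A0 / τ := by
            rw [le_div_iff₀ hτ]
            have := mul_le_mul_of_nonneg_left hA3 hε.le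
            linarith
          have h9 : 0 ≤ η₁ * (1 + B) ^ (k + 1) := by positivity
          linarith
        · set b := min ζ (τ / 3) with hb
          have hb1 : ε₁ ≤ b := le_min h2 (by linarith)
          have hb2 : b ≤ ζ := min_le_left _ _
          have hb3 : b ≤ τ / 3 := min_le_right _ _
          have hb0 : 0 < b := lt_of_lt_of_le hε hb1
          obtain ⟨c1, c2, c3⟩ := hU2 τ b (by linarith) h5 hb1 (by linarith)
          have hI := hMb P t g w hw hg hMerb ε₁ b _ le_rfl hb1 (hb2.trans h3) c1 c2 c3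
          rw [hκB] at hI
          have hI2 : |SS P t (fun p => g p * (ε₁ / t p * f ((τ - t p) / t p))) ε₁ b -
            ∫ x in ε₁..b, (ε₁ / x * f ((τ - x) / x)) / x| ≤ η₁ := hI
          rw [int_id (by norm_num : (2:ℝ) ≤ 3) cf eF hε hb1 (by linarith)] at hI2
          have hI3 := (abs_le.1 hI2).1
          have hge1 := F1 (τ / ε₁) (by rw [le_div_iff₀ hε]; linarith)
          have hsum : SS P t (fun p => g p * (ε₁ / t p * f ((τ - t p) / t p))) ε₁ b -
              η₁ * (1 + B) ^ k * SS P t g ε₁ b ≤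
              SS P t (fun p => g p * MM P t g k false (τ - t p) (t p)) ε₁ b := by
            unfold SS
            rw [mul_sum, ← sum_sub_distrib]
            apply sum_le_sum
            intro p hp
            rw [mem_filter] at hp
            obtain ⟨hp1, hp2, hp3⟩ := hp
            have hih := (ih (τ - t p) (t p) (by linarith) hp2 (by linarith) (by linarith)
              (by linarith)).2 (by linarith)
            have := mul_le_mul_of_nonneg_left hih (hg p hp1)
            linarith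
          have hSgb := hSg b hb1 (hb2.trans h3)
          have h7 := mul_le_mul_of_nonneg_left hSgb hek0
          have h8 : ε₁ / b * F (τ / b) = ε₁ / ζ * F (τ / ζ) := by
            rcases le_total ζ (τ / 3) with h9 | h9
            · rw [hb, min_eq_left h9]
            · rw [hb, min_eq_right h9]
              have hs1 : 1 ≤ τ / ζ := by rw [le_div_iff₀ hζ]; linarith
              have hs2 : τ / ζ ≤ 3 := by rw [div_le_iff₀ hζ]; linarith
              rw [F3 _ hs1 hs2, show τ / (τ / 3) = 3 by field_simp, F3 3 (by norm_num) le_rfl]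
              field_simp
          rw [h8] at hI3
          linarith
      · intro h6
        rw [MM_false P t g ht k τ ζ]
        obtain ⟨c1, c2, c3⟩ := hU1 τ ζ (by linarith) h5 h2 (by linarith)
        have hI := hMa P t g w hw hg hMera ε₁ ζ _ le_rfl h2 h3 c1 c2 c3
        rw [hκB] at hI
        have hI2 : |SS P t (fun p => g p * (ε₁ / t p * F ((τ - t p) / t p))) ε₁ ζ -
          ∫ x in ε₁..ζ, (ε₁ / x * F ((τ - x) / x)) / x| ≤ η₁ := hI
        rw [int_id (A := 0) le_rfl cF (fun s hs => by rw [zero_add]; exact ef s hs) hε h2 h6] at hI2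
        have hI3 := (abs_le.1 hI2).2
        have hge1 := f1 (τ / ε₁) (by rw [le_div_iff₀ hε]; linarith)
        have hsum : SS P t (fun p => g p * MM P t g k true (τ - t p) (t p)) ε₁ ζ ≤
            SS P t (fun p => g p * (ε₁ / t p * F ((τ - t p) / t p))) ε₁ ζ +
              η₁ * (1 + B) ^ k * SS P t g ε₁ ζ := by
          unfold SS
          rw [mul_sum, ← sum_add_distrib]
          apply sum_le_sum
          intro p hp
          rw [mem_filter] at hp
          obtain ⟨hp1, hp2, hp3⟩ := hp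
          have hih := (ih (τ - t p) (t p) (by linarith) hp2 (by linarith) (by linarith)
            (by linarith)).1
          have := mul_le_mul_of_nonneg_left hih (hg p hp1)
          linarith
        have hSgb := hSg ζ h2 h3
        have h7 := mul_le_mul_of_nonneg_left hSgb hek0
        linarith
  intro k hk τ ζ h1 h2 h3 h4 h5
  have hle : η₁ * (1 + B) ^ k ≤ η' := by
    calc η₁ * (1 + B) ^ k ≤ η₁ * (1 + B) ^ K :=
          mul_le_mul_of_nonneg_left (pow_le_pow_right₀ h1B hk) hη₁0.le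
      _ = η' := by rw [hη₁]; field_simp
  obtain ⟨m1, m2⟩ := main k τ ζ h1 h2 h3 h4 h5
  exact ⟨by linarith, fun h6 => by linarith [m2 h6]⟩

end Pool.Agent.W505.DC
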